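import Pool.Agent.Lib_helper90.Heart.Main

/-!
# Consequences of the spanning property in terms of traces
-/

set_option autoImplicit false

namespace Pool.Agent.Heart

open Function Module

variable {k : Type*} [Field k]

/-- A spanning family of matrices contains a subfamily with nonzero trace Gram determinant. -/
theorem gram_of_span {G : Type*} [Monoid G] {d : ℕ} (r : G →* Matrix (Fin d) (Fin d) k)
    (h : Submodule.span k (Set.range r) = ⊤) :
    ∃ x : Fin d × Fin d → G,
      (Matrix.of fun a b : Fin d × Fin d => (r (x a * x b)).trace).det ≠ 0 := by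
  classical
  -- a basis inside the family
  obtain ⟨s, hs, hspan, hlin⟩ := exists_linearIndependent k (Set.range r)
  have hspan' : (⊤ : Submodule k (Matrix (Fin d) (Fin d) k)) ≤
      Submodule.span k (Set.range (Subtype.val : s → Matrix (Fin d) (Fin d) k)) := by
    rw [Subtype.range_coe, hspan, h]
  let B := Basis.mk hlin hspan'
  let B' := B.reindex (B.indexEquiv (Matrix.stdBasis k (Fin d) (Fin d)))
  have hB' : ∀ a, ∃ g, r g = B' a := by
    intro a
    have e : B' a = (((B.indexEquiv (Matrix.stdBasis k (Fin d) (Fin d))).symm a : s) :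
        Matrix (Fin d) (Fin d) k) := by
      simp [B', B]
    rw [e]
    exact hs (Subtype.prop _)
  choose x hx using hB'
  refine ⟨x, fun hdet => ?_⟩
  obtain ⟨v, hv, hv0⟩ := Matrix.exists_mulVec_eq_zero_iff.mpr hdet
  set M : Matrix (Fin d) (Fin d) k := ∑ b, v b • B' b with hM
  have h1 : ∀ a, (B' a * M).trace = 0 := by
    intro a
    have h2 := congrFun hv0 a
    rw [hM, Finset.mul_sum, Matrix.trace_sum]
    rw [Matrix.mulVec, dotProduct] at h2
    simp only [Matrix.of_apply, Pi.zero_apply] at h2
    rw [← h2]
    refine Finset.sum_congr rfl fun b _ => ?_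
    rw [Matrix.mul_smul, Matrix.trace_smul, smul_eq_mul, mul_comm, map_mul, hx, hx]
  have h2 : M = 0 := by
    rw [Matrix.ext_iff_trace_mul_left]
    intro A
    rw [Matrix.mul_zero, Matrix.trace_zero, ← B'.sum_repr A, Finset.sum_mul, Matrix.trace_sum]
    refine Finset.sum_eq_zero fun a _ => ?_
    rw [Matrix.smul_mul, Matrix.trace_smul, h1, smul_zero]
  apply hv
  funext b
  have h3 := (Fintype.linearIndependent_iff.mp B'.linearIndependent) v (by rw [← hM, h2]) b
  exact h3

/-- Elements with nonzero trace Gram determinant span. -/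
theorem span_of_gram {G : Type*} [Monoid G] {d : ℕ} (A : G →* Matrix (Fin d) (Fin d) k)
    (x : Fin d × Fin d → G)
    (h : (Matrix.of fun a b : Fin d × Fin d => (A (x a * x b)).trace).det ≠ 0) :
    Submodule.span k (Set.range A) = ⊤ := by
  classical
  have hlin : LinearIndependent k fun a => A (x a) := by
    rw [Fintype.linearIndependent_iff]
    intro v hv
    by_contra hne
    push Not at hne
    obtain ⟨b, hb⟩ := hne
    apply h
    rw [← Matrix.exists_mulVec_eq_zero_iff]
    refine ⟨v, fun h0 => hb (congrFun h0 b), ?_⟩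
    funext a
    rw [Matrix.mulVec, dotProduct]
    simp only [Matrix.of_apply, Pi.zero_apply]
    have h4 : (A (x a) * ∑ b, v b • A (x b)).trace = 0 := by
      rw [hv, Matrix.mul_zero, Matrix.trace_zero]
    rw [Finset.mul_sum, Matrix.trace_sum] at h4
    rw [← h4]
    refine Finset.sum_congr rfl fun b _ => ?_
    rw [Matrix.mul_smul, Matrix.trace_smul, smul_eq_mul, mul_comm, map_mul]
  have hcard : Fintype.card (Fin d × Fin d) = finrank k (Matrix (Fin d) (Fin d) k) := by
    rw [finrank_matrix]
    simp
  have h5 := hlin.span_eq_top_of_card_eq_finrank' hcard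
  rw [eq_top_iff, ← h5, Submodule.span_le]
  rintro _ ⟨a, rfl⟩
  exact Submodule.subset_span ⟨x a, rfl⟩

/-- A spanning group of matrices has no invariant subspace. -/
theorem irreducible_of_span {G : Type*} [Monoid G] {d : ℕ} (A : G →* Matrix (Fin d) (Fin d) k)
    (h : Submodule.span k (Set.range A) = ⊤) (W : Submodule k (Fin d → k))
    (hW : ∀ g, ∀ w ∈ W, (A g).mulVec w ∈ W) : W = ⊥ ∨ W = ⊤ := by
  classical
  by_cases h0 : W = ⊥
  · exact Or.inl h0
  refine Or.inr ?_
  obtain ⟨w, hw, hw0⟩ := (Submodule.ne_bot_iff W).mp h0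
  have hall : ∀ M : Matrix (Fin d) (Fin d) k, M.mulVec w ∈ W := by
    intro M
    have hM : M ∈ Submodule.span k (Set.range A) := by rw [h]; exact Submodule.mem_top
    induction hM using Submodule.span_induction with
    | zero => rw [Matrix.zero_mulVec]; exact W.zero_mem
    | add x y _ _ hx hy => rw [Matrix.add_mulVec]; exact W.add_mem hx hy
    | smul c x _ hx => rw [Matrix.smul_mulVec]; exact W.smul_mem _ hx
    | mem x hx =>
      obtain ⟨g, rfl⟩ := hx
      exact hW g w hw
  obtain ⟨i, hi⟩ : ∃ i, w i ≠ 0 := by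
    by_contra hne
    push Not at hne
    exact hw0 (funext hne)
  rw [eq_top_iff]
  rintro y -
  have e : y = (Matrix.of fun a b => if b = i then y a * (w i)⁻¹ else 0).mulVec w := by
    funext a
    rw [Matrix.mulVec, dotProduct]
    simp [hi]
  rw [e]
  exact hall _

variable {n N : ℕ}

/-- **The Gram determinant of the heart characters.** -/
theorem heart_gram (h2 : (2 : k) ≠ 0) (hn : 2 * N ≤ n) (hn1 : 1 ≤ n) :
    ∃ x : Fin (heartDim k n N) × Fin (heartDim k n N) → Equiv.Perm (Fin n),
      (Matrix.of fun a b : Fin (heartDim k n N) × Fin (heartDim k n N) =>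
        heartTr k n N (x a * x b)).det ≠ 0 := by
  obtain ⟨r, hr, htr⟩ := heart_rep (k := k) h2 hn hn1
  obtain ⟨x, hx⟩ := gram_of_span r hr
  refine ⟨x, ?_⟩
  have e : (Matrix.of fun a b : Fin (heartDim k n N) × Fin (heartDim k n N) =>
      heartTr k n N (x a * x b)) = Matrix.of fun a b => (r (x a * x b)).trace := by
    ext a b
    simp only [Matrix.of_apply]
    rw [htr]
  rw [e]
  exact hx

/-- A representation of a group that surjects onto the symmetric group, with the traces of the
exterior power of the heart, is absolutely irreducible. -/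
theorem span_of_heartTr (h2 : (2 : k) ≠ 0) (hn : 2 * N ≤ n) (hn1 : 1 ≤ n) {G : Type*} [Group G]
    (π : G →* Equiv.Perm (Fin n)) (hπ : Surjective π) {d : ℕ} (hd : d = heartDim k n N)
    (A : G →* Matrix (Fin d) (Fin d) k) (hA : ∀ g, (A g).trace = heartTr k n N (π g)) :
    Submodule.span k (Set.range A) = ⊤ := by
  subst hd
  obtain ⟨x, hx⟩ := heart_gram (k := k) h2 hn hn1
  choose y hy using fun a => hπ (x a)
  apply span_of_gram A y
  have e : (Matrix.of fun a b : Fin (heartDim k n N) × Fin (heartDim k n N) =>
      (A (y a * y b)).trace) = Matrix.of fun a b => heartTr k n N (x a * x b) := by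
    ext a b
    simp only [Matrix.of_apply]
    rw [hA, map_mul, hy, hy]
  rw [e]
  exact hx

end Pool.Agent.Heart
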