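import Mathlib

/-!
# Traces on exterior powers
-/

set_option autoImplicit false

namespace Pool.Agent.Heart

open Function Module Polynomial

variable {k : Type*} [Field k] {V : Type*} [AddCommGroup V] [Module k V]

theorem trace_ext_aux {ι : Type*} [LinearOrder ι] [Fintype ι] (b : Basis ι k V) (N : ℕ)
    (f : Module.End k V) :
    LinearMap.trace k _ (exteriorPower.map N f) =
      (Matrix.det (1 + (X : k[X]) • (LinearMap.toMatrix b b f).map C)).coeff N := by
  rw [Matrix.coeff_det_one_add_X_smul_eq_sum_minors,
    LinearMap.trace_eq_matrix_trace k (b.exteriorPower N), Matrix.trace]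
  have e1 : ∀ s : Set.powersetCard ι N,
      (LinearMap.toMatrix (b.exteriorPower N) (b.exteriorPower N) (exteriorPower.map N f)).diag s =
      ((LinearMap.toMatrix b b f).submatrix (Subtype.val : {x // x ∈ s.1} → ι)
        (Subtype.val : {x // x ∈ s.1} → ι)).det := by
    intro s
    rw [Matrix.diag_apply, LinearMap.toMatrix_apply, exteriorPower.basis_repr_apply,
      exteriorPower.basis_apply, exteriorPower.ιMulti_family, exteriorPower.map_apply_ιMulti,
      exteriorPower.ιMultiDual_apply_ιMulti, ← Matrix.det_transpose]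
    rw [← Matrix.det_submatrix_equiv_self ((s : Finset ι).orderIsoOfFin s.2).toEquiv]
    congr 1
    ext i j
    simp [LinearMap.toMatrix_apply, Set.powersetCard.ofFinEmbEquiv_symm_apply,
      Finset.coe_orderIsoOfFin_apply]
  rw [Finset.sum_congr rfl fun s _ => e1 s]
  refine Finset.sum_bij (fun s _ => (s : Finset ι)) ?_ ?_ ?_ ?_
  · intro s _
    rw [Finset.mem_powersetCard]
    exact ⟨Finset.subset_univ _, s.2⟩
  · intro s _ t _ h
    exact Subtype.ext h
  · intro s hs
    rw [Finset.mem_powersetCard] at hs
    exact ⟨⟨s, hs.2⟩, Finset.mem_univ _, rfl⟩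
  · intro s _
    rfl

/-- The trace on the exterior power. -/
theorem trace_ext {ι : Type*} [Fintype ι] [hd : DecidableEq ι] (b : Basis ι k V) (N : ℕ)
    (f : Module.End k V) :
    LinearMap.trace k _ (exteriorPower.map N f) =
      (Matrix.det (1 + (X : k[X]) • (LinearMap.toMatrix b b f).map C)).coeff N := by
  classical
  let _ : LinearOrder ι := linearOrderOfSTO WellOrderingRel
  have h := trace_ext_aux b N f
  have e : hd = LinearOrder.toDecidableEq := Subsingleton.elim _ _
  rw [e]
  exact h

/-- The polynomial `det (1 + X f)`. -/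
noncomputable def cp [FiniteDimensional k V] (f : Module.End k V) : k[X] :=
  Matrix.det (1 + (X : k[X]) • (LinearMap.toMatrix (finBasis k V) (finBasis k V) f).map C)

theorem trace_ext_cp [FiniteDimensional k V] (N : ℕ) (f : Module.End k V) :
    LinearMap.trace k _ (exteriorPower.map N f) = (cp f).coeff N := trace_ext _ N f

theorem cp_eq [FiniteDimensional k V] {ι : Type*} [Fintype ι] [DecidableEq ι] (b : Basis ι k V)
    (f : Module.End k V) :
    cp f = Matrix.det (1 + (X : k[X]) • (LinearMap.toMatrix b b f).map C) := by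
  ext N
  rw [← trace_ext_cp, trace_ext b]

open Module.Basis in
/-- Multiplicativity. -/
theorem cp_mul [FiniteDimensional k V] (W : Submodule k V) (e : Module.End k V)
    (he : W ≤ W.comap e) : cp e = cp (e.restrict he) * cp (W.mapQ W e he) := by
  let bW := finBasis k W
  let bQ := finBasis k (V ⧸ W)
  let b := sumQuot bW bQ
  let A := LinearMap.toMatrix bW bW (e.restrict he)
  let B : Matrix _ _ k := Matrix.of fun i l ↦
    ((sumQuot bW bQ).repr (e ((sumQuot bW bQ) (Sum.inr l)))) (Sum.inl i)
  let D := LinearMap.toMatrix bQ bQ (W.mapQ W e he)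
  have key : LinearMap.toMatrix b b e = Matrix.fromBlocks A B 0 D := by
    ext u v
    cases u with
    | inl i =>
      cases v with
      | inl k =>
        simp only [b, sumQuot_inl, Matrix.fromBlocks_apply₁₁, A, LinearMap.toMatrix_apply]
        apply sumQuot_repr_inl_of_mem
      | inr l => simp [b, LinearMap.toMatrix_apply, Matrix.fromBlocks_apply₁₂, B]
    | inr j =>
      cases v with
      | inl k =>
        suffices W.mkQ (e (bW k)) = 0 by simp [LinearMap.toMatrix_apply, b, this]
        rw [← LinearMap.mem_ker, Submodule.ker_mkQ]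
        exact he (Submodule.coe_mem (bW k))
      | inr l =>
        simp only [LinearMap.toMatrix_apply, sumQuot_repr_inr,
          Matrix.fromBlocks_apply₂₂, b, D]
        rw [← sumQuot_inr bW bQ l, W.mapQ_apply]
        simp
  rw [cp_eq b, key]
  have : (1 + (X : k[X]) • (Matrix.fromBlocks A B 0 D).map C) =
      Matrix.fromBlocks (1 + (X : k[X]) • A.map C) ((X : k[X]) • B.map C) 0
        (1 + (X : k[X]) • D.map C) := by
    rw [← Matrix.fromBlocks_one, Matrix.fromBlocks_map, Matrix.fromBlocks_smul,
      Matrix.fromBlocks_add]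
    congr 1
    · simp
    · simp
  rw [this, Matrix.det_fromBlocks_zero₂₁]
  rfl

theorem cp_conj [FiniteDimensional k V] {W : Type*} [AddCommGroup W] [Module k W]
    [FiniteDimensional k W] (e : V ≃ₗ[k] W) (f : Module.End k V) (g : Module.End k W)
    (h : ∀ v, e (f v) = g (e v)) : cp f = cp g := by
  rw [cp_eq (finBasis k V) f, cp_eq ((finBasis k V).map e) g]
  congr 4
  ext i j
  simp [LinearMap.toMatrix_apply, ← h]

end Pool.Agent.Heart
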