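import Pool.Agent.Lib_helper90.Heart.Span
import Pool.Agent.Lib_helper90.Heart.Trace

/-!
# The heart of the permutation module
-/

set_option autoImplicit false

namespace Pool.Agent.Heart

open Function Module Polynomial

variable (k : Type*) [Field k] (n : ℕ)

/-- The permutation module. -/
noncomputable def rho0 : Equiv.Perm (Fin n) →* Module.End k (Fin n → k) where
  toFun σ := LinearMap.funLeft k k (σ⁻¹ : Equiv.Perm (Fin n))
  map_one' := by
    refine LinearMap.ext fun x => ?_
    funext i
    simp [LinearMap.funLeft_apply]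
  map_mul' σ τ := by
    refine LinearMap.ext fun x => ?_
    funext i
    simp [LinearMap.funLeft_apply]

theorem rho0_apply (σ : Equiv.Perm (Fin n)) (x : Fin n → k) (i : Fin n) :
    rho0 k n σ x i = x (σ⁻¹ i) := rfl

/-- The sum. -/
noncomputable def sumL : (Fin n → k) →ₗ[k] k := ∑ i, LinearMap.proj i

theorem sumL_apply (x : Fin n → k) : sumL k n x = ∑ i, x i := by
  simp [sumL, LinearMap.sum_apply]

theorem sumL_rho0 (σ : Equiv.Perm (Fin n)) (x : Fin n → k) :
    sumL k n (rho0 k n σ x) = sumL k n x := by
  rw [sumL_apply, sumL_apply]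
  exact Equiv.sum_comp σ⁻¹ x

/-- The vectors of sum zero. -/
noncomputable def S0 : Submodule k (Fin n → k) := LinearMap.ker (sumL k n)

theorem mem_S0 (x : Fin n → k) : x ∈ S0 k n ↔ ∑ i, x i = 0 := by
  rw [S0, LinearMap.mem_ker, sumL_apply]

theorem S0_le (σ : Equiv.Perm (Fin n)) : S0 k n ≤ (S0 k n).comap (rho0 k n σ) := by
  intro x hx
  rw [Submodule.mem_comap]
  rw [S0, LinearMap.mem_ker] at hx ⊢
  rw [sumL_rho0, hx]

/-- The action on the vectors of sum zero. -/
noncomputable def rhoS (σ : Equiv.Perm (Fin n)) : Module.End k (S0 k n) :=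
  (rho0 k n σ).restrict (S0_le k n σ)

theorem rhoS_coe (σ : Equiv.Perm (Fin n)) (x : S0 k n) :
    ((rhoS k n σ x : S0 k n) : Fin n → k) = rho0 k n σ (x : Fin n → k) := rfl

/-- The constant vectors. -/
noncomputable def C1 : Submodule k (Fin n → k) := k ∙ (1 : Fin n → k)

theorem mem_C1 (x : Fin n → k) : x ∈ C1 k n ↔ ∃ c : k, ∀ i, x i = c := by
  rw [C1, Submodule.mem_span_singleton]
  constructor
  · rintro ⟨c, rfl⟩
    exact ⟨c, fun i => by simp⟩
  · rintro ⟨c, hc⟩
    exact ⟨c, by funext i; simp [hc]⟩

/-- The constant vectors of sum zero. -/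
noncomputable def CS : Submodule k (S0 k n) := (C1 k n).comap (S0 k n).subtype

theorem mem_CS (x : S0 k n) : x ∈ CS k n ↔ ∃ c : k, ∀ i, (x : Fin n → k) i = c := by
  rw [CS, Submodule.mem_comap, mem_C1]
  rfl

theorem rhoS_of_mem (σ : Equiv.Perm (Fin n)) (x : S0 k n) (hx : x ∈ CS k n) :
    rhoS k n σ x = x := by
  rw [mem_CS] at hx
  obtain ⟨c, hc⟩ := hx
  apply Subtype.ext
  rw [rhoS_coe]
  funext i
  rw [rho0_apply, hc, hc]

theorem CS_le (σ : Equiv.Perm (Fin n)) : CS k n ≤ (CS k n).comap (rhoS k n σ) := by
  intro x hx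
  rw [Submodule.mem_comap, rhoS_of_mem k n σ x hx]
  exact hx

/-- The heart. -/
abbrev Hrt : Type _ := (S0 k n) ⧸ (CS k n)

/-- The action on the heart. -/
noncomputable def rhoV : Equiv.Perm (Fin n) →* Module.End k (Hrt k n) where
  toFun σ := (CS k n).mapQ (CS k n) (rhoS k n σ) (CS_le k n σ)
  map_one' := by
    refine LinearMap.ext fun x => ?_
    induction x using Submodule.Quotient.induction_on with
    | _ x =>
      rw [Submodule.mapQ_apply, Module.End.one_apply]
      congr 1
  map_mul' σ τ := by
    refine LinearMap.ext fun x => ?_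
    induction x using Submodule.Quotient.induction_on with
    | _ x =>
      rw [Submodule.mapQ_apply, Module.End.mul_apply, Submodule.mapQ_apply, Submodule.mapQ_apply]
      congr 1

theorem rhoV_mk (σ : Equiv.Perm (Fin n)) (x : S0 k n) :
    rhoV k n σ (Submodule.Quotient.mk x) = Submodule.Quotient.mk (rhoS k n σ x) := rfl

/-- The roots. -/
noncomputable def rt (a b : Fin n) : S0 k n :=
  ⟨Pi.single a 1 - Pi.single b 1, by
    rw [mem_S0]
    simp [Finset.sum_sub_distrib]⟩

theorem rt_coe (a b : Fin n) : ((rt k n a b : S0 k n) : Fin n → k) =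
    Pi.single a 1 - Pi.single b 1 := rfl

variable (o : Fin n)

/-- The vectors `u a`. -/
noncomputable def uV (a : Fin n) : Hrt k n := Submodule.Quotient.mk (rt k n a o)

theorem uV_sub (a b : Fin n) :
    uV k n o a - uV k n o b = Submodule.Quotient.mk (rt k n a b) := by
  rw [uV, uV, ← Submodule.Quotient.mk_sub]
  congr 1
  apply Subtype.ext
  rw [Submodule.coe_sub, rt_coe, rt_coe, rt_coe]
  abel

/-- The functional on the vectors of sum zero. -/
noncomputable def psS (a b : Fin n) : Dual k (S0 k n) :=
  (LinearMap.proj (R := k) (φ := fun _ : Fin n => k) a -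
    LinearMap.proj (R := k) (φ := fun _ : Fin n => k) b).comp (S0 k n).subtype

theorem psS_apply (a b : Fin n) (x : S0 k n) :
    psS k n a b x = (x : Fin n → k) a - (x : Fin n → k) b := rfl

/-- The functionals `ψ a`. -/
noncomputable def psV (a : Fin n) : Dual k (Hrt k n) :=
  (CS k n).liftQ (psS k n a o) (by
    intro x hx
    rw [mem_CS] at hx
    obtain ⟨c, hc⟩ := hx
    rw [LinearMap.mem_ker, psS_apply, hc, hc, sub_self])

theorem psV_sub (a b : Fin n) (x : S0 k n) :
    (psV k n o a - psV k n o b) (Submodule.Quotient.mk x) =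
      (x : Fin n → k) a - (x : Fin n → k) b := by
  rw [LinearMap.sub_apply]
  change psS k n a o x - psS k n b o x = _
  rw [psS_apply, psS_apply]
  abel

theorem reflData : ReflData (rhoV k n) (uV k n o) (psV k n o) where
  hu := by
    rw [eq_top_iff]
    rintro x -
    induction x using Submodule.Quotient.induction_on with
    | _ x =>
      have hx : x = ∑ a, (x : Fin n → k) a • rt k n a o := by
        apply Subtype.ext
        rw [Submodule.coe_sum]
        simp only [Submodule.coe_smul, rt_coe, smul_sub, Finset.sum_sub_distrib]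
        rw [← Finset.sum_smul, (mem_S0 k n _).mp x.2, zero_smul, sub_zero]
        funext i
        simp [Finset.sum_apply, Pi.single_apply]
      have h2 : (Submodule.Quotient.mk x : Hrt k n) =
          ∑ a, (x : Fin n → k) a • (uV k n o a - uV k n o o) := by
        conv_lhs => rw [hx]
        rw [← Submodule.mkQ_apply, map_sum]
        refine Finset.sum_congr rfl fun a _ => ?_
        rw [map_smul, uV_sub, Submodule.mkQ_apply]
      rw [h2]
      exact Submodule.sum_mem _ fun a _ => Submodule.smul_mem _ _
        (Submodule.subset_span ⟨(a, o), rfl⟩)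
  hψ := by
    rw [← Subspace.dualCoannihilator_dualAnnihilator_eq
      (W := Submodule.span k (Set.range fun x : Fin n × Fin n => psV k n o x.1 - psV k n o x.2)),
      Submodule.dualAnnihilator_eq_top_iff, eq_bot_iff]
    intro x hx
    rw [Submodule.mem_dualCoannihilator] at hx
    induction x using Submodule.Quotient.induction_on with
    | _ x =>
      rw [Submodule.mem_bot, Submodule.Quotient.mk_eq_zero, mem_CS]
      refine ⟨(x : Fin n → k) o, fun i => ?_⟩
      have h := hx _ (Submodule.subset_span ⟨(i, o), rfl⟩)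
      simp only [psV_sub] at h
      exact sub_eq_zero.mp h
  disj := by
    intro a b c d hac had hbc hbd
    rw [uV_sub, psV_sub, rt_coe]
    simp [hac, had, hbc, hbd]
  swap := by
    intro a b hab v
    induction v using Submodule.Quotient.induction_on with
    | _ x =>
      rw [rhoV_mk, psV_sub, uV_sub, ← Submodule.Quotient.mk_smul, ← Submodule.Quotient.mk_sub]
      congr 1
      apply Subtype.ext
      rw [rhoS_coe, Submodule.coe_sub, Submodule.coe_smul, rt_coe]
      funext i
      rw [rho0_apply, Equiv.swap_inv]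
      simp only [Pi.sub_apply, Pi.smul_apply, smul_eq_mul, Pi.single_apply]
      rcases eq_or_ne i a with rfl | hia
      · rw [Equiv.swap_apply_left]
        simp [hab]
      · rcases eq_or_ne i b with rfl | hib
        · rw [Equiv.swap_apply_right]
          simp [hab.symm]
        · rw [Equiv.swap_apply_of_ne_of_ne hia hib]
          simp [hia, hib]
  act := by
    intro g a b
    rw [uV_sub, uV_sub, rhoV_mk]
    congr 1
    apply Subtype.ext
    rw [rhoS_coe, rt_coe, rt_coe]
    funext i
    rw [rho0_apply]
    simp only [Pi.sub_apply, Pi.single_apply, Equiv.Perm.inv_eq_iff_eq]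
  dact := by
    intro g a b v
    induction v using Submodule.Quotient.induction_on with
    | _ x =>
      rw [rhoV_mk, psV_sub, psV_sub, rhoS_coe, rho0_apply, rho0_apply]
      simp

end Pool.Agent.Heart
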