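import Mathlib

/-!
# Reflections and contractions on the exterior algebra
-/

set_option autoImplicit false

namespace Pool.Agent.Heart

open CliffordAlgebra Function

variable {k : Type*} [Field k] {V : Type*} [AddCommGroup V] [Module k V]

/-- The contraction by a linear form. -/
noncomputable def con (φ : Module.Dual k V) : ExteriorAlgebra k V →ₗ[k] ExteriorAlgebra k V :=
  contractLeft (Q := (0 : QuadraticForm k V)) φ

theorem con_ι_mul (φ : Module.Dual k V) (a : V) (b : ExteriorAlgebra k V) :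
    con φ (ExteriorAlgebra.ι k a * b) = φ a • b - ExteriorAlgebra.ι k a * con φ b :=
  contractLeft_ι_mul (Q := (0 : QuadraticForm k V)) φ a b

theorem con_one (φ : Module.Dual k V) : con φ (1 : ExteriorAlgebra k V) = 0 :=
  contractLeft_one (Q := (0 : QuadraticForm k V)) φ

theorem con_algebraMap (φ : Module.Dual k V) (c : k) :
    con φ (algebraMap k (ExteriorAlgebra k V) c) = 0 :=
  contractLeft_algebraMap (Q := (0 : QuadraticForm k V)) φ c

theorem ι_mul_ι (a b : V) : ExteriorAlgebra.ι k a * ExteriorAlgebra.ι k b =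
    - (ExteriorAlgebra.ι k b * ExteriorAlgebra.ι k a) :=
  eq_neg_of_add_eq_zero_left (ExteriorAlgebra.ι_add_mul_swap a b)

/-- A transvection or reflection acts on the exterior algebra by `x ↦ x - r ∧ ι_φ x`. -/
theorem map_refl (φ : Module.Dual k V) (r : V) (f : V →ₗ[k] V) (hf : ∀ v, f v = v - φ v • r)
    (x : ExteriorAlgebra k V) :
    ExteriorAlgebra.map f x = x - ExteriorAlgebra.ι k r * con φ x := by
  induction x using CliffordAlgebra.left_induction with
  | algebraMap c =>
    rw [show (algebraMap k (CliffordAlgebra (0 : QuadraticForm k V))) c =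
      algebraMap k (ExteriorAlgebra k V) c from rfl, con_algebraMap, mul_zero, sub_zero,
      AlgHom.commutes]
  | add x y hx hy => rw [map_add, hx, hy, map_add, mul_add]; abel
  | ι_mul x a hx =>
    change ExteriorAlgebra.map f (ExteriorAlgebra.ι k a * x) =
      ExteriorAlgebra.ι k a * x - ExteriorAlgebra.ι k r * con φ (ExteriorAlgebra.ι k a * x)
    rw [map_mul, hx, ExteriorAlgebra.map_apply_ι, hf, con_ι_mul, map_sub, map_smul]
    simp only [sub_mul, mul_sub, smul_mul_assoc, mul_smul_comm]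
    have h1 : ExteriorAlgebra.ι k r * (ExteriorAlgebra.ι k r * con φ x) = 0 := by
      rw [← mul_assoc, ExteriorAlgebra.ι_sq_zero, zero_mul]
    have h2 : ExteriorAlgebra.ι k a * (ExteriorAlgebra.ι k r * con φ x) =
        - (ExteriorAlgebra.ι k r * (ExteriorAlgebra.ι k a * con φ x)) := by
      rw [← mul_assoc, ι_mul_ι, neg_mul, mul_assoc]
    rw [h1, h2, smul_zero]
    abel

/-- Contraction of a product of vectors. -/
theorem con_ιMulti (φ : Module.Dual k V) (m : ℕ) (v : Fin (m + 1) → V) :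
    con φ (ExteriorAlgebra.ιMulti k (m + 1) v) =
      ∑ j : Fin (m + 1), ((-1 : k) ^ (j : ℕ) * φ (v j)) •
        ExteriorAlgebra.ιMulti k m (v ∘ j.succAbove) := by
  induction m with
  | zero =>
    rw [ExteriorAlgebra.ιMulti_succ_apply, con_ι_mul, ExteriorAlgebra.ιMulti_zero_apply, con_one]
    simp
  | succ m ih =>
    have h0 : (Matrix.vecTail v) = v ∘ Fin.succ := rfl
    rw [ExteriorAlgebra.ιMulti_succ_apply, con_ι_mul, h0, ih,
      Fin.sum_univ_succ (f := fun j : Fin (m + 1 + 1) => ((-1 : k) ^ (j : ℕ) * φ (v j)) •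
        ExteriorAlgebra.ιMulti k (m + 1) (v ∘ j.succAbove))]
    simp only [Fin.succAbove_zero, Fin.val_zero, pow_zero, one_mul]
    rw [sub_eq_add_neg]
    congr 1
    rw [Finset.mul_sum, ← Finset.sum_neg_distrib]
    apply Finset.sum_congr rfl
    intro j _
    rw [ExteriorAlgebra.ιMulti_succ_apply (v ∘ (Fin.succ j).succAbove)]
    have h1 : (v ∘ (Fin.succ j).succAbove) 0 = v 0 := by
      simp
    have h2 : Matrix.vecTail (v ∘ (Fin.succ j).succAbove) = (v ∘ Fin.succ) ∘ j.succAbove := by
      funext l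
      simp [Matrix.vecTail, Fin.succ_succAbove_succ]
    rw [h1, h2, mul_smul_comm, ← neg_smul]
    congr 1
    rw [Fin.val_succ, pow_succ]
    simp

/-- Iterated contraction, `φ 0` first. -/
noncomputable def cw : (N : ℕ) → (Fin N → Module.Dual k V) →
    (ExteriorAlgebra k V →ₗ[k] ExteriorAlgebra k V)
  | 0, _ => LinearMap.id
  | N + 1, φ => (cw N (φ ∘ Fin.succ)).comp (con (φ 0))

theorem cw_zero (φ : Fin 0 → Module.Dual k V) (x : ExteriorAlgebra k V) : cw 0 φ x = x := rfl

theorem cw_succ (N : ℕ) (φ : Fin (N + 1) → Module.Dual k V) (x : ExteriorAlgebra k V) :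
    cw (N + 1) φ x = cw N (φ ∘ Fin.succ) (con (φ 0) x) := rfl

/-- The iterated contraction of a product of vectors is a determinant. -/
theorem cw_ιMulti (N : ℕ) (φ : Fin N → Module.Dual k V) (v : Fin N → V) :
    cw N φ (ExteriorAlgebra.ιMulti k N v) =
      algebraMap k _ (Matrix.of fun i j => φ i (v j)).det := by
  induction N with
  | zero =>
    rw [cw_zero, ExteriorAlgebra.ιMulti_zero_apply, Matrix.det_isEmpty, map_one]
  | succ N ih =>
    rw [cw_succ, con_ιMulti, map_sum, Matrix.det_succ_row_zero, map_sum]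
    apply Finset.sum_congr rfl
    intro j _
    rw [map_smul, ih]
    have h : (Matrix.of fun i j' => (φ ∘ Fin.succ) i ((v ∘ j.succAbove) j')) =
        (Matrix.of fun i j => φ i (v j)).submatrix Fin.succ j.succAbove := rfl
    rw [h, Algebra.smul_def, ← map_mul]
    congr 1

theorem cw_ι_mul (N : ℕ) (φ : Fin N → Module.Dual k V) (r : V) (h : ∀ i, φ i r = 0)
    (x : ExteriorAlgebra k V) :
    cw N φ (ExteriorAlgebra.ι k r * x) = (-1 : k) ^ N • (ExteriorAlgebra.ι k r * cw N φ x) := by
  induction N generalizing x with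
  | zero => simp [cw_zero]
  | succ N ih =>
    rw [cw_succ, cw_succ, con_ι_mul, h 0, zero_smul, zero_sub, map_neg,
      ih (φ ∘ Fin.succ) (fun i => h i.succ), pow_succ]
    simp

theorem ιMulti_mul_ι (N : ℕ) (v : Fin N → V) (a : V) :
    ExteriorAlgebra.ιMulti k N v * ExteriorAlgebra.ι k a =
      (-1 : k) ^ N • (ExteriorAlgebra.ι k a * ExteriorAlgebra.ιMulti k N v) := by
  induction N with
  | zero => simp
  | succ N ih =>
    rw [ExteriorAlgebra.ιMulti_succ_apply, mul_assoc, ih, mul_smul_comm, ← mul_assoc, ι_mul_ι,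
      pow_succ, neg_mul, mul_assoc]
    simp

/-- The composite of the operators `1 - τ_i`, `τ_0` first. -/
noncomputable def tw : (N : ℕ) → (Fin N → V →ₗ[k] V) →
    (ExteriorAlgebra k V →ₗ[k] ExteriorAlgebra k V)
  | 0, _ => LinearMap.id
  | N + 1, τ => (tw N (τ ∘ Fin.succ)).comp
      (LinearMap.id - (ExteriorAlgebra.map (τ 0)).toLinearMap)

theorem tw_eq (N : ℕ) (τ : Fin N → V →ₗ[k] V) (φ : Fin N → Module.Dual k V) (r : Fin N → V)
    (hτ : ∀ i v, τ i v = v - φ i v • r i) (hφ : ∀ i j, i ≠ j → φ i (r j) = 0)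
    (x : ExteriorAlgebra k V) :
    tw N τ x = ExteriorAlgebra.ιMulti k N r * cw N φ x := by
  induction N generalizing x with
  | zero =>
    rw [ExteriorAlgebra.ιMulti_zero_apply, one_mul, cw_zero]
    rfl
  | succ N ih =>
    have e : tw (N + 1) τ x = tw N (τ ∘ Fin.succ) (x - ExteriorAlgebra.map (τ 0) x) := rfl
    rw [e, map_refl (φ 0) (r 0) (τ 0) (hτ 0), sub_sub_cancel,
      ih (τ ∘ Fin.succ) (φ ∘ Fin.succ) (r ∘ Fin.succ) (fun i => hτ i.succ)
        (fun i j hij => hφ i.succ j.succ (fun h => hij (Fin.succ_injective _ h))),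
      cw_ι_mul N (φ ∘ Fin.succ) (r 0) (fun i => hφ i.succ 0 (Fin.succ_ne_zero i)), mul_smul_comm,
      ← mul_assoc, ιMulti_mul_ι, smul_mul_assoc, smul_smul, ← mul_pow, cw_succ,
      ExteriorAlgebra.ιMulti_succ_apply]
    simp only [mul_neg, mul_one, neg_neg, one_pow, one_smul]
    rfl

end Pool.Agent.Heart
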