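import Pool.Agent.Lib_helper90.Heart.Conc

/-!
# The exterior powers of the heart: dimension, trace, spanning
-/

set_option autoImplicit false

namespace Pool.Agent.Heart

open Function Module Polynomial

variable (k : Type*) [Field k] (n : ℕ)

/-- The permutation matrix. -/
def permMat (σ : Equiv.Perm (Fin n)) : Matrix (Fin n) (Fin n) k :=
  Matrix.of fun a b => if a = σ b then 1 else 0

/-- The sum of the principal minors of size `j` of the permutation matrix, i.e. the trace of the
permutation on the `j`-th exterior power of `k ^ n`. -/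
def pm (σ : Equiv.Perm (Fin n)) (j : ℕ) : k :=
  ∑ J ∈ (Finset.univ : Finset (Fin n)).powersetCard j,
    ((permMat k n σ).submatrix (Subtype.val : J → Fin n) (Subtype.val : J → Fin n)).det

open scoped Classical in
/-- The dimension of the `N`-th exterior power of the heart. -/
noncomputable def heartDim (N : ℕ) : ℕ :=
  if (n : k) = 0 then (n - 2).choose N else (n - 1).choose N

open scoped Classical in
/-- The weights in the trace formula. -/
noncomputable def heartWt (N j : ℕ) : k := if (n : k) = 0 then ((N - j + 1 : ℕ) : k) else 1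

/-- The trace of the permutation `σ` on the `N`-th exterior power of the heart. -/
noncomputable def heartTr (N : ℕ) (σ : Equiv.Perm (Fin n)) : k :=
  ∑ j ∈ Finset.range (N + 1), (-1) ^ (N - j) * heartWt k n N j * pm k n σ j

theorem cp_rho0 (σ : Equiv.Perm (Fin n)) (j : ℕ) : (cp (rho0 k n σ)).coeff j = pm k n σ j := by
  rw [cp_eq (Pi.basisFun k (Fin n)), Matrix.coeff_det_one_add_X_smul_eq_sum_minors, pm]
  have h : LinearMap.toMatrix (Pi.basisFun k (Fin n)) (Pi.basisFun k (Fin n)) (rho0 k n σ) =
      permMat k n σ := by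
    ext a b
    rw [LinearMap.toMatrix_apply, Pi.basisFun_repr, Pi.basisFun_apply, rho0_apply, permMat,
      Matrix.of_apply, Pi.single_apply]
    simp only [Equiv.Perm.inv_eq_iff_eq]
  rw [h]

/-- The polynomial of the identity on a line. -/
theorem cp_line {W : Type*} [AddCommGroup W] [Module k W] [FiniteDimensional k W]
    (h : finrank k W = 1) (f : Module.End k W) (hf : ∀ w, f w = w) : cp f = 1 + X := by
  have hf' : f = LinearMap.id := LinearMap.ext hf
  let b : Basis (Fin 1) k W := finBasisOfFinrankEq k W h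
  rw [cp_eq b, hf', LinearMap.toMatrix_id]
  simp

theorem cp_zero {W : Type*} [AddCommGroup W] [Module k W] [FiniteDimensional k W]
    (h : finrank k W = 0) (f : Module.End k W) : cp f = 1 := by
  let b : Basis (Fin 0) k W := finBasisOfFinrankEq k W h
  rw [cp_eq b]
  simp

variable {n} in
theorem sumL_surj (hn : 1 ≤ n) : Function.Surjective (sumL k n) := by
  intro c
  refine ⟨Pi.single ⟨0, hn⟩ c, ?_⟩
  rw [sumL_apply]
  simp

variable {n} in
theorem finrank_quot (hn : 1 ≤ n) : finrank k ((Fin n → k) ⧸ S0 k n) = 1 := by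
  have e : ((Fin n → k) ⧸ S0 k n) ≃ₗ[k] k := by
    unfold S0
    exact (sumL k n).quotKerEquivOfSurjective (sumL_surj k hn)
  rw [e.finrank_eq, finrank_self]

variable {n} in
theorem finrank_S0 (hn : 1 ≤ n) : finrank k (S0 k n) = n - 1 := by
  have h := Submodule.finrank_quotient_add_finrank (S0 k n)
  rw [finrank_quot k hn, finrank_fin_fun] at h
  omega

variable {n} in
/-- The first step. -/
theorem cp_rhoS (hn : 1 ≤ n) (σ : Equiv.Perm (Fin n)) :
    cp (rho0 k n σ) = cp (rhoS k n σ) * (1 + X) := by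
  rw [cp_mul (S0 k n) (rho0 k n σ) (S0_le k n σ)]
  congr 1
  apply cp_line k (finrank_quot k hn)
  intro w
  induction w using Submodule.Quotient.induction_on with
  | _ x =>
    rw [Submodule.mapQ_apply, Submodule.Quotient.eq, S0, LinearMap.mem_ker, map_sub, sumL_rho0,
      sub_self]

theorem CS_eq_bot (h : (n : k) ≠ 0) : CS k n = ⊥ := by
  rw [eq_bot_iff]
  intro x hx
  rw [mem_CS] at hx
  obtain ⟨c, hc⟩ := hx
  have h1 := (mem_S0 k n _).mp x.2
  rw [Finset.sum_congr rfl fun i _ => hc i, Finset.sum_const, Finset.card_univ, Fintype.card_fin,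
    nsmul_eq_mul] at h1
  have hc0 : c = 0 := by
    rcases mul_eq_zero.mp h1 with h2 | h2
    · exact absurd h2 h
    · exact h2
  rw [Submodule.mem_bot]
  apply Subtype.ext
  funext i
  rw [hc, hc0]
  rfl

variable {n} in
theorem finrank_CS (hn : 1 ≤ n) (h : (n : k) = 0) : finrank k (CS k n) = 1 := by
  have hmem : (1 : Fin n → k) ∈ S0 k n := by
    rw [mem_S0]
    simp [h]
  have hCS : CS k n = k ∙ (⟨1, hmem⟩ : S0 k n) := by
    ext x
    rw [mem_CS, Submodule.mem_span_singleton]
    constructor
    · rintro ⟨c, hc⟩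
      refine ⟨c, ?_⟩
      apply Subtype.ext
      funext i
      rw [hc]
      simp
    · rintro ⟨c, rfl⟩
      exact ⟨c, fun i => by simp⟩
  rw [hCS]
  apply finrank_span_singleton
  intro h0
  have h1 := congrArg (fun x : S0 k n => (x : Fin n → k) ⟨0, hn⟩) h0
  simp at h1

theorem finrank_CS0 (h : (n : k) ≠ 0) : finrank k (CS k n) = 0 := by
  rw [CS_eq_bot k n h, finrank_bot]

variable {n} in
theorem finrank_Hrt (hn : 1 ≤ n) [Decidable ((n : k) = 0)] :
    finrank k (Hrt k n) = if (n : k) = 0 then n - 2 else n - 1 := by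
  have h : finrank k (Hrt k n) + finrank k (CS k n) = finrank k (S0 k n) :=
    Submodule.finrank_quotient_add_finrank (CS k n)
  rw [finrank_S0 k hn] at h
  split_ifs with h0
  · rw [finrank_CS k hn h0] at h
    omega
  · rw [finrank_CS0 k n h0, add_zero] at h
    exact h

variable {n} in
theorem cp_rhoV1 (hn : 1 ≤ n) (σ : Equiv.Perm (Fin n)) (h0 : (n : k) = 0) :
    cp (rhoS k n σ) = cp (rhoV k n σ) * (1 + X) := by
  have h1 := cp_line k (W := CS k n) (finrank_CS k hn h0)
  have h2 := h1 ((rhoS k n σ).restrict (CS_le k n σ))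
  have hw : ∀ w : CS k n, (rhoS k n σ).restrict (CS_le k n σ) w = w :=
    fun w => Subtype.ext (rhoS_of_mem k n σ w.1 w.2)
  have e2 := h2 hw
  have e3 := cp_mul (CS k n) (rhoS k n σ) (CS_le k n σ)
  rw [e2, mul_comm] at e3
  exact e3

theorem cp_rhoV0 (σ : Equiv.Perm (Fin n)) (h0 : (n : k) ≠ 0) :
    cp (rhoS k n σ) = cp (rhoV k n σ) := by
  have e2 := cp_zero k (W := CS k n) (finrank_CS0 k n h0)
    ((rhoS k n σ).restrict (CS_le k n σ))
  have e3 := cp_mul (CS k n) (rhoS k n σ) (CS_le k n σ)
  rw [e2, one_mul] at e3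
  exact e3

theorem coeff_one {k : Type*} [Field k] (q r : k[X]) (h : r = q * (1 + X)) (N : ℕ) :
    q.coeff N = ∑ j ∈ Finset.range (N + 1), (-1) ^ (N - j) * r.coeff j := by
  induction N with
  | zero => simp [h, mul_add]
  | succ N ih =>
    rw [Finset.sum_range_succ, Nat.sub_self, pow_zero, one_mul]
    have e1 : r.coeff (N + 1) = q.coeff (N + 1) + q.coeff N := by
      rw [h, mul_add, mul_one, coeff_add, coeff_mul_X]
    have e2 : ∑ j ∈ Finset.range (N + 1), (-1) ^ (N + 1 - j) * r.coeff j = - q.coeff N := by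
      rw [ih, ← Finset.sum_neg_distrib]
      refine Finset.sum_congr rfl fun j hj => ?_
      rw [Finset.mem_range] at hj
      rw [show N + 1 - j = (N - j) + 1 by omega, pow_succ]
      ring
    rw [e1, e2]
    ring

theorem coeff_two {k : Type*} [Field k] (q r : k[X]) (h : r = q * (1 + X) * (1 + X)) (N : ℕ) :
    q.coeff N = ∑ j ∈ Finset.range (N + 1), (-1) ^ (N - j) * ((N - j + 1 : ℕ) : k) *
      r.coeff j := by
  have hs := coeff_one (q * (1 + X)) r h
  induction N with
  | zero => simp [h, mul_add]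
  | succ N ih =>
    have e0 := hs (N + 1)
    have e1 : (q * (1 + X)).coeff (N + 1) = q.coeff (N + 1) + q.coeff N := by
      rw [mul_add, mul_one, coeff_add, coeff_mul_X]
    rw [e1] at e0
    have e2 : q.coeff (N + 1) = ∑ j ∈ Finset.range (N + 1 + 1), (-1) ^ (N + 1 - j) * r.coeff j -
        q.coeff N := by
      rw [← e0]
      ring
    rw [e2, ih, Finset.sum_range_succ, Finset.sum_range_succ _ (N + 1)]
    have e3 : ∑ j ∈ Finset.range (N + 1), (-1) ^ (N + 1 - j) * ((N + 1 - j + 1 : ℕ) : k) *
        r.coeff j = ∑ j ∈ Finset.range (N + 1), (-1) ^ (N + 1 - j) * r.coeff j -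
        ∑ j ∈ Finset.range (N + 1), (-1) ^ (N - j) * ((N - j + 1 : ℕ) : k) * r.coeff j := by
      rw [← Finset.sum_sub_distrib]
      refine Finset.sum_congr rfl fun j hj => ?_
      rw [Finset.mem_range] at hj
      rw [show N + 1 - j = (N - j) + 1 by omega, pow_succ]
      push_cast
      ring
    rw [e3]
    simp
    ring

variable {n} in
/-- The trace on the exterior power of the heart. -/
theorem trace_heart (hn : 1 ≤ n) (N : ℕ) (σ : Equiv.Perm (Fin n)) :
    LinearMap.trace k _ (exteriorPower.map N (rhoV k n σ)) = heartTr k n N σ := by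
  classical
  rw [trace_ext_cp, heartTr]
  have h1 := cp_rhoS k hn σ
  by_cases h0 : (n : k) = 0
  · rw [cp_rhoV1 k hn σ h0] at h1
    rw [coeff_two _ _ h1]
    refine Finset.sum_congr rfl fun j _ => ?_
    rw [cp_rho0, heartWt, if_pos h0]
  · rw [cp_rhoV0 k n σ h0] at h1
    rw [coeff_one _ _ h1]
    refine Finset.sum_congr rfl fun j _ => ?_
    rw [cp_rho0, heartWt, if_neg h0, mul_one]

variable {n} in
theorem finrank_ext (hn : 1 ≤ n) (N : ℕ) :
    finrank k (⋀[k]^N (Hrt k n)) = heartDim k n N := by
  classical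
  rw [exteriorPower.finrank_eq, finrank_Hrt k hn, heartDim]
  split_ifs <;> rfl

variable {k n} in
/-- **The exterior powers of the heart of the permutation module**: for `2 N ≤ n` and `2 ≠ 0` the
permutations span the full matrix algebra (absolute irreducibility), and the trace is given by
minors of permutation matrices. -/
theorem heart_rep (h2 : (2 : k) ≠ 0) {N : ℕ} (hn : 2 * N ≤ n) (hn1 : 1 ≤ n) :
    ∃ r : Equiv.Perm (Fin n) →* Matrix (Fin (heartDim k n N)) (Fin (heartDim k n N)) k,
      Submodule.span k (Set.range r) = ⊤ ∧ ∀ σ, (r σ).trace = heartTr k n N σ := by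
  let B : Basis (Fin (heartDim k n N)) k (⋀[k]^N (Hrt k n)) :=
    finBasisOfFinrankEq k _ (finrank_ext k hn1 N)
  let L := LinearMap.toMatrixAlgEquiv B
  let m : Equiv.Perm (Fin n) →* Module.End k (⋀[k]^N (Hrt k n)) :=
    { toFun := fun σ => exteriorPower.map N (rhoV k n σ)
      map_one' := map_one' (rhoV k n)
      map_mul' := fun σ τ => map_mul' (rhoV k n) σ τ }
  refine ⟨(L : Module.End k (⋀[k]^N (Hrt k n)) →* _).comp m, ?_, ?_⟩
  · have h := spanOp_eq_top (N := N) (reflData k n ⟨0, hn1⟩) h2 hn
    rw [spanOp] at h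
    have h' := congrArg (Submodule.map L.toLinearMap) h
    rw [Submodule.map_span, Submodule.map_top, ← Set.range_comp] at h'
    have h3 : LinearMap.range L.toLinearMap = ⊤ := LinearMap.range_eq_top.mpr L.surjective
    rw [h3] at h'
    exact h'
  · intro σ
    rw [← trace_heart k hn1 N σ, LinearMap.trace_eq_matrix_trace k B]
    rfl

end Pool.Agent.Heart
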