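import Mathlib

/-!
# Alternating maps that vanish on families of disjoint roots

Let `u : Fin n → W`, and let `F` be an alternating map of `N` variables on `W`, `2 N ≤ n`. If
`F` vanishes on all families of differences `u (a i) - u (b i)` for which the `2 N` indices
`a i`, `b i` are distinct, then it vanishes on all families of differences.
-/

set_option autoImplicit false

namespace Pool.Agent.Heart

open Function

variable {k : Type*} [Field k] {W Q : Type*} [AddCommGroup W] [Module k W] [AddCommGroup Q]
  [Module k Q] {n N : ℕ}

/-- The three term identity. -/
theorem three_term (h2 : (2 : k) ≠ 0) (F : W [⋀^Fin N]→ₗ[k] Q) (w : Fin N → W) {i j : Fin N}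
    (hij : i ≠ j) (a b c v : W)
    (h1 : F (update (update w i (v - a)) j (b - c)) = 0)
    (h2' : F (update (update w i (v - b)) j (c - a)) = 0)
    (h3 : F (update (update w i (v - c)) j (a - b)) = 0) :
    F (update (update w i (a - b)) j (b - c)) = 0 := by
  set G : W → W → Q := fun x y => F (update (update w i x) j y) with hG
  have hadd1 : ∀ x x' y, G (x - x') y = G x y - G x' y := by
    intro x x' y
    simp only [hG]
    rw [update_comm hij, update_comm hij, update_comm hij]
    exact F.map_update_sub _ _ _ _
  have hadd2 : ∀ x y y', G x (y - y') = G x y - G x y' := by
    intro x y y'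
    simp only [hG]
    exact F.map_update_sub _ _ _ _
  have hself : ∀ x, G x x = 0 := by
    intro x
    simp only [hG]
    apply F.map_eq_zero_of_eq _ _ hij
    rw [update_of_ne hij, update_self, update_self]
  have hanti : ∀ x y, G x y = - G y x := by
    intro x y
    have h := hself (x - y)
    rw [hadd1, hadd2, hadd2, hself, hself] at h
    have : G x y + G y x = 0 := by
      have h' : -(0 - G x y - (G y x - 0)) = 0 := by rw [h, neg_zero]
      rw [← h']; abel
    exact eq_neg_of_add_eq_zero_left this
  have e1 : G (v - a) (b - c) = 0 := h1
  have e2 : G (v - b) (c - a) = 0 := h2'
  have e3 : G (v - c) (a - b) = 0 := h3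
  have key : (2 : k) • G (a - b) (b - c) = 0 := by
    have : (2 : k) • G (a - b) (b - c) =
        -(G (v - a) (b - c) + G (v - b) (c - a) + G (v - c) (a - b)) := by
      simp only [hadd1, hadd2, hself, two_smul]
      rw [hanti b a, hanti c a, hanti c b]
      abel
    rw [this, e1, e2, e3]
    simp
  rcases smul_eq_zero.mp key with h | h
  · exact absurd h h2
  · exact h

/-- The differences. -/
def root (u : Fin n → W) (a b : Fin N → Fin n) : Fin N → W := fun i => u (a i) - u (b i)

/-- Number of indices touched. -/
def touched (a b : Fin N → Fin n) : Finset (Fin n) :=
  Finset.univ.image a ∪ Finset.univ.image b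

theorem mem_touched {a b : Fin N → Fin n} {x : Fin n} :
    x ∈ touched a b ↔ (∃ i, a i = x) ∨ ∃ i, b i = x := by
  simp [touched]

theorem touched_card_le (a b : Fin N → Fin n) : (touched a b).card ≤ 2 * N := by
  unfold touched
  refine (Finset.card_union_le _ _).trans ?_
  have h1 := Finset.card_image_le (s := (Finset.univ : Finset (Fin N))) (f := a)
  have h2 := Finset.card_image_le (s := (Finset.univ : Finset (Fin N))) (f := b)
  simp only [Finset.card_univ, Fintype.card_fin] at h1 h2
  omega

/-- Reversal of one edge. -/
theorem swap_edge (F : W [⋀^Fin N]→ₗ[k] Q) (u : Fin n → W) (a b : Fin N → Fin n) (i : Fin N) :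
    F (root u (update a i (b i)) (update b i (a i))) = - F (root u a b) := by
  have h1 : root u (update a i (b i)) (update b i (a i)) =
      update (root u a b) i (- (u (a i) - u (b i))) := by
    funext l
    rcases eq_or_ne l i with rfl | h
    · simp [root]
    · simp [root, update_of_ne h]
  rw [h1]
  have h2 := F.map_update_neg (root u a b) i (u (a i) - u (b i))
  rw [h2]
  congr 2
  funext l
  rcases eq_or_ne l i with rfl | h
  · simp [root]
  · simp [update_of_ne h]

theorem touched_swap (a b : Fin N → Fin n) (i : Fin N) :
    touched (update a i (b i)) (update b i (a i)) = touched a b := by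
  ext x
  rw [mem_touched, mem_touched]
  constructor
  · rintro (⟨l, hl⟩ | ⟨l, hl⟩)
    · rcases eq_or_ne l i with rfl | h
      · rw [update_self] at hl
        exact Or.inr ⟨l, hl⟩
      · rw [update_of_ne h] at hl
        exact Or.inl ⟨l, hl⟩
    · rcases eq_or_ne l i with rfl | h
      · rw [update_self] at hl
        exact Or.inl ⟨l, hl⟩
      · rw [update_of_ne h] at hl
        exact Or.inr ⟨l, hl⟩
  · rintro (⟨l, hl⟩ | ⟨l, hl⟩)
    · rcases eq_or_ne l i with rfl | h
      · exact Or.inr ⟨l, by rw [update_self]; exact hl⟩
      · exact Or.inl ⟨l, by rw [update_of_ne h]; exact hl⟩
    · rcases eq_or_ne l i with rfl | h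
      · exact Or.inl ⟨l, by rw [update_self]; exact hl⟩
      · exact Or.inr ⟨l, by rw [update_of_ne h]; exact hl⟩

/-- The main lemma. -/
theorem alternating_eq_zero (h2 : (2 : k) ≠ 0) (hn : 2 * N ≤ n) (u : Fin n → W)
    (F : W [⋀^Fin N]→ₗ[k] Q)
    (hF : ∀ a b : Fin N → Fin n, Injective (Sum.elim a b) → F (root u a b) = 0)
    (a b : Fin N → Fin n) : F (root u a b) = 0 := by
  -- induction on the number of indices which are not touched
  suffices H : ∀ d : ℕ, ∀ a b : Fin N → Fin n, 2 * N - (touched a b).card ≤ d →
      F (root u a b) = 0 from H _ a b le_rfl
  intro d
  induction d with
  | zero =>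
    intro a b hd
    apply hF
    have hc : (touched a b).card = 2 * N := le_antisymm (touched_card_le a b) (by omega)
    -- a surjection from a set of 2N elements onto a set of 2N elements is injective
    have h1 : (Finset.univ.image (Sum.elim a b)) = touched a b := by
      ext x
      rw [mem_touched]
      simp only [Finset.mem_image, Finset.mem_univ, true_and, Sum.exists, Sum.elim_inl,
        Sum.elim_inr]
    have h3 : (Finset.univ.image (Sum.elim a b)).card =
        (Finset.univ : Finset (Fin N ⊕ Fin N)).card := by
      rw [h1, hc]
      simp [two_mul]
    have h4 := Finset.card_image_iff.mp h3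
    intro x y hxy
    exact h4 (by simp) (by simp) hxy
  | succ d ih =>
    intro a b hd
    by_cases hinj : Injective (Sum.elim a b)
    · exact hF a b hinj
    have hc : (touched a b).card < 2 * N := by
      refine lt_of_le_of_ne (touched_card_le a b) ?_
      intro hc
      apply hinj
      have h1 : (Finset.univ.image (Sum.elim a b)) = touched a b := by
        ext x
        rw [mem_touched]
        simp only [Finset.mem_image, Finset.mem_univ, true_and, Sum.exists, Sum.elim_inl,
          Sum.elim_inr]
      have h3 : (Finset.univ.image (Sum.elim a b)).card =
          (Finset.univ : Finset (Fin N ⊕ Fin N)).card := by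
        rw [h1, hc]
        simp [two_mul]
      have h4 := Finset.card_image_iff.mp h3
      intro x y hxy
      exact h4 (by simp) (by simp) hxy
    -- a fresh index
    obtain ⟨v, hv⟩ : ∃ v : Fin n, v ∉ touched a b := by
      by_contra hall
      push Not at hall
      have h5 : touched a b = Finset.univ := Finset.eq_univ_iff_forall.mpr hall
      rw [h5, Finset.card_univ, Fintype.card_fin] at hc
      omega
    -- the case b i = a j
    have main : ∀ a b : Fin N → Fin n, 2 * N - (touched a b).card ≤ d + 1 →
        (touched a b).card < 2 * N → v ∉ touched a b → ∀ i j : Fin N, i ≠ j → b i = a j →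
        F (root u a b) = 0 := by
      intro a b hd hc hv i j hij hba
      have hroot : root u a b = update (update (root u a b) i (u (a i) - u (b i))) j
          (u (b i) - u (b j)) := by
        funext l
        rcases eq_or_ne l j with rfl | h
        · rw [update_self, hba]
          rfl
        · rw [update_of_ne h]
          rcases eq_or_ne l i with rfl | h'
          · rw [update_self]
            rfl
          · rw [update_of_ne h']
      rw [hroot]
      -- new edges
      have new : ∀ (x y z : Fin n), ({x, y, z} : Finset (Fin n)) = {a i, b i, b j} →
          F (update (update (root u a b) i (u v - u x)) j (u y - u z)) = 0 := by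
        intro x y z hxyz
        have e1 : update (update (root u a b) i (u v - u x)) j (u y - u z) =
            root u (update (update a i v) j y) (update (update b i x) j z) := by
          funext l
          rcases eq_or_ne l j with rfl | h
          · simp [root]
          · rcases eq_or_ne l i with rfl | h'
            · simp [root, update_of_ne h]
            · simp [root, update_of_ne h, update_of_ne h']
        rw [e1]
        apply ih
        -- the new pair touches one more index
        have hsub : insert v (touched a b) ⊆
            touched (update (update a i v) j y) (update (update b i x) j z) := by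
          intro w hw
          have hmem : ∀ w, w ∈ ({x, y, z} : Finset (Fin n)) →
              w ∈ touched (update (update a i v) j y) (update (update b i x) j z) := by
            intro w hw
            rw [mem_touched]
            simp only [Finset.mem_insert, Finset.mem_singleton] at hw
            rcases hw with rfl | rfl | rfl
            · exact Or.inr ⟨i, by rw [update_of_ne hij, update_self]⟩
            · exact Or.inl ⟨j, by rw [update_self]⟩
            · exact Or.inr ⟨j, by rw [update_self]⟩
          rw [Finset.mem_insert] at hw
          rcases hw with rfl | hw
          · rw [mem_touched]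
            exact Or.inl ⟨i, by rw [update_of_ne hij, update_self]⟩
          · rw [mem_touched] at hw
            rcases hw with ⟨l, hl⟩ | ⟨l, hl⟩
            · rcases eq_or_ne l j with rfl | h
              · apply hmem
                rw [hxyz, ← hl, ← hba]
                simp
              · rcases eq_or_ne l i with rfl | h'
                · apply hmem
                  rw [hxyz, ← hl]
                  simp
                · rw [mem_touched]
                  exact Or.inl ⟨l, by rw [update_of_ne h, update_of_ne h']; exact hl⟩
            · rcases eq_or_ne l j with rfl | h
              · apply hmem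
                rw [hxyz, ← hl]
                simp
              · rcases eq_or_ne l i with rfl | h'
                · apply hmem
                  rw [hxyz, ← hl]
                  simp
                · rw [mem_touched]
                  exact Or.inr ⟨l, by rw [update_of_ne h, update_of_ne h']; exact hl⟩
        have hcard := Finset.card_le_card hsub
        rw [Finset.card_insert_of_notMem hv] at hcard
        omega
      apply three_term h2 F _ hij (u (a i)) (u (b i)) (u (b j)) (u v)
      · exact new _ _ _ rfl
      · apply new
        ext w
        simp only [Finset.mem_insert, Finset.mem_singleton]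
        tauto
      · apply new
        ext w
        simp only [Finset.mem_insert, Finset.mem_singleton]
        tauto
    -- general coincidence
    rw [Function.Injective] at hinj
    push Not at hinj
    obtain ⟨x, y, hxy, hne⟩ := hinj
    rcases x with i | i <;> rcases y with j | j
    · -- a i = a j: reverse i
      have hij : i ≠ j := fun h => hne (by rw [h])
      have e := swap_edge F u a b i
      have h0 := main (update a i (b i)) (update b i (a i)) (by rw [touched_swap]; exact hd)
        (by rw [touched_swap]; exact hc) (by rw [touched_swap]; exact hv) i j hij
        (by rw [update_self, update_of_ne hij.symm]; exact hxy)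
      rw [h0] at e
      exact neg_eq_zero.mp e.symm
    · -- a i = b j
      rcases eq_or_ne i j with rfl | hij
      · apply F.map_coord_zero i
        have : a i = b i := hxy
        simp [root, this]
      · exact main a b hd hc hv j i hij.symm (by exact hxy.symm)
    · -- b i = a j
      rcases eq_or_ne i j with rfl | hij
      · apply F.map_coord_zero i
        have : b i = a i := hxy
        simp [root, this]
      · exact main a b hd hc hv i j hij hxy
    · -- b i = b j: reverse j
      have hij : i ≠ j := fun h => hne (by rw [h])
      have e := swap_edge F u a b j
      have h0 := main (update a j (b j)) (update b j (a j)) (by rw [touched_swap]; exact hd)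
        (by rw [touched_swap]; exact hc) (by rw [touched_swap]; exact hv) i j hij
        (by rw [update_of_ne hij, update_self]; exact hxy)
      rw [h0] at e
      exact neg_eq_zero.mp e.symm

end Pool.Agent.Heart
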