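import Pool.Agent.Lib_helper90.Heart.Matching
import Pool.Agent.Lib_helper90.Heart.Contract

/-!
# The exterior powers of the reflection representation: the group spans all endomorphisms
-/

set_option autoImplicit false

namespace Pool.Agent.Heart

open Function Module

variable {k : Type*} [Field k] {V : Type*} [AddCommGroup V] [Module k V] {n N : ℕ}

/-- Wedges of disjoint roots span. -/
theorem span_matchings (h2 : (2 : k) ≠ 0) (hn : 2 * N ≤ n) (u : Fin n → V)
    (hu : Submodule.span k (Set.range fun x : Fin n × Fin n => u x.1 - u x.2) = ⊤) :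
    Submodule.span k {x : ⋀[k]^N V | ∃ a b : Fin N → Fin n, Injective (Sum.elim a b) ∧
      x = exteriorPower.ιMulti k N (root u a b)} = ⊤ := by
  set P := Submodule.span k {x : ⋀[k]^N V | ∃ a b : Fin N → Fin n, Injective (Sum.elim a b) ∧
      x = exteriorPower.ιMulti k N (root u a b)} with hP
  rw [eq_top_iff, ← exteriorPower.ιMulti_span_of_span k N V hu, Submodule.span_le]
  rintro _ ⟨v, hv, rfl⟩
  -- v is a family of roots
  have hv' : ∀ i, ∃ x : Fin n × Fin n, u x.1 - u x.2 = v i := fun i =>
    hv (Set.mem_range_self i)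
  choose x hx using hv'
  have e : v = root u (fun i => (x i).1) (fun i => (x i).2) := by
    funext i
    exact (hx i).symm
  have hF := alternating_eq_zero (k := k) h2 hn u
    (P.mkQ.compAlternatingMap (exteriorPower.ιMulti k N)) (by
      intro a b hab
      rw [LinearMap.compAlternatingMap_apply, Submodule.mkQ_apply, Submodule.Quotient.mk_eq_zero]
      exact Submodule.subset_span ⟨a, b, hab, rfl⟩)
    (fun i => (x i).1) (fun i => (x i).2)
  rw [LinearMap.compAlternatingMap_apply, Submodule.mkQ_apply,
    Submodule.Quotient.mk_eq_zero] at hF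
  rw [e]
  exact hF

/-- The functionals of disjoint dual roots span the dual. -/
theorem span_matchings_dual [FiniteDimensional k V] (h2 : (2 : k) ≠ 0) (hn : 2 * N ≤ n)
    (ψ : Fin n → Dual k V)
    (hψ : Submodule.span k (Set.range fun x : Fin n × Fin n => ψ x.1 - ψ x.2) = ⊤) :
    Submodule.span k {s : Dual k (⋀[k]^N V) | ∃ a b : Fin N → Fin n, Injective (Sum.elim a b) ∧
      s = exteriorPower.pairingDual k V N (exteriorPower.ιMulti k N (root ψ a b))} = ⊤ := by
  have h1 := span_matchings (N := N) h2 hn ψ hψ
  have hsurj : LinearMap.range (exteriorPower.pairingDual k V N) = ⊤ := by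
    classical
    let b := Module.finBasis k V
    rw [eq_top_iff]
    rintro s -
    -- s is a combination of the coordinate functionals
    let B := b.exteriorPower N
    have hs : s = ∑ t, s (B t) • B.coord t := by
      refine B.ext fun t => ?_
      rw [LinearMap.sum_apply]
      simp only [LinearMap.smul_apply, Basis.coord_apply, Basis.repr_self]
      rw [Finset.sum_eq_single t]
      · simp
      · intro t' _ ht'
        simp [Finsupp.single_eq_of_ne ht']
      · intro h
        exact absurd (Finset.mem_univ _) h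
    rw [hs]
    refine Submodule.sum_mem _ fun t _ => Submodule.smul_mem _ _ ?_
    rw [exteriorPower.basis_coord]
    exact ⟨_, rfl⟩
  rw [eq_top_iff, ← hsurj, LinearMap.range_eq_map, ← h1, Submodule.map_span, Submodule.span_le]
  rintro _ ⟨x, ⟨a, b, hab, rfl⟩, rfl⟩
  exact Submodule.subset_span ⟨a, b, hab, rfl⟩

/-- Reflections data for the symmetric group. -/
structure ReflData (ρ : Equiv.Perm (Fin n) →* Module.End k V) (u : Fin n → V)
    (ψ : Fin n → Dual k V) : Prop where
  hu : Submodule.span k (Set.range fun x : Fin n × Fin n => u x.1 - u x.2) = ⊤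
  hψ : Submodule.span k (Set.range fun x : Fin n × Fin n => ψ x.1 - ψ x.2) = ⊤
  disj : ∀ a b c d, a ≠ c → a ≠ d → b ≠ c → b ≠ d → (ψ a - ψ b) (u c - u d) = 0
  swap : ∀ a b, a ≠ b → ∀ v, ρ (Equiv.swap a b) v = v - (ψ a - ψ b) v • (u a - u b)
  act : ∀ g a b, ρ g (u a - u b) = u (g a) - u (g b)
  dact : ∀ g a b v, (ψ (g a) - ψ (g b)) (ρ g v) = (ψ a - ψ b) v

/-- The span of the operators of the exterior power. -/
noncomputable def spanOp (N : ℕ) (ρ : Equiv.Perm (Fin n) →* Module.End k V) :
    Submodule k (Module.End k (⋀[k]^N V)) :=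
  Submodule.span k (Set.range fun g => exteriorPower.map N (ρ g))

theorem mem_spanOp (ρ : Equiv.Perm (Fin n) →* Module.End k V) (g : Equiv.Perm (Fin n)) :
    exteriorPower.map N (ρ g) ∈ spanOp N ρ := Submodule.subset_span ⟨g, rfl⟩

theorem map_one' (ρ : Equiv.Perm (Fin n) →* Module.End k V) :
    exteriorPower.map N (ρ 1) = (1 : Module.End k (⋀[k]^N V)) := by
  rw [map_one]
  exact exteriorPower.map_id

theorem map_mul' (ρ : Equiv.Perm (Fin n) →* Module.End k V) (g h : Equiv.Perm (Fin n)) :
    exteriorPower.map N (ρ (g * h)) =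
      (exteriorPower.map N (ρ g) * exteriorPower.map N (ρ h) : Module.End k (⋀[k]^N V)) := by
  rw [map_mul]
  exact exteriorPower.map_comp _ _

theorem one_mem_spanOp (ρ : Equiv.Perm (Fin n) →* Module.End k V) :
    (1 : Module.End k (⋀[k]^N V)) ∈ spanOp N ρ := by
  rw [← map_one' ρ]
  exact mem_spanOp ρ 1

theorem mul_mem_spanOp (ρ : Equiv.Perm (Fin n) →* Module.End k V)
    {x y : Module.End k (⋀[k]^N V)} (hx : x ∈ spanOp N ρ) (hy : y ∈ spanOp N ρ) :
    x * y ∈ spanOp N ρ := by
  unfold spanOp at hx hy ⊢
  induction hx using Submodule.span_induction with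
  | zero => rw [zero_mul]; exact Submodule.zero_mem _
  | add a b _ _ ha hb => rw [add_mul]; exact Submodule.add_mem _ ha hb
  | smul c a _ ha => rw [smul_mul_assoc]; exact Submodule.smul_mem _ _ ha
  | mem a ha =>
    obtain ⟨g, rfl⟩ := ha
    induction hy using Submodule.span_induction with
    | zero => rw [mul_zero]; exact Submodule.zero_mem _
    | add a b _ _ ha hb => rw [mul_add]; exact Submodule.add_mem _ ha hb
    | smul c a _ ha => rw [mul_smul_comm]; exact Submodule.smul_mem _ _ ha
    | mem b hb =>
      obtain ⟨h, rfl⟩ := hb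
      dsimp only
      rw [← map_mul' ρ g h]
      exact Submodule.subset_span ⟨g * h, rfl⟩

/-- The composite of `1 - τ_i` on the exterior power. -/
noncomputable def twp (N : ℕ) : (m : ℕ) → (Fin m → Module.End k V) →
    Module.End k (⋀[k]^N V)
  | 0, _ => 1
  | m + 1, τ => twp N m (τ ∘ Fin.succ) * (1 - exteriorPower.map N (τ 0))

theorem coe_map (f : Module.End k V) (x : ⋀[k]^N V) :
    ((exteriorPower.map N f x : ⋀[k]^N V) : ExteriorAlgebra k V) =
      ExteriorAlgebra.map f (x : ExteriorAlgebra k V) := by
  have h : (⋀[k]^N V).subtype ∘ₗ exteriorPower.map N f =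
      (ExteriorAlgebra.map f).toLinearMap ∘ₗ (⋀[k]^N V).subtype := by
    apply exteriorPower.linearMap_ext
    ext v
    simp [ExteriorAlgebra.map_apply_ιMulti]
  exact LinearMap.congr_fun h x

theorem coe_twp (m : ℕ) (τ : Fin m → Module.End k V) (x : ⋀[k]^N V) :
    ((twp N m τ x : ⋀[k]^N V) : ExteriorAlgebra k V) = tw m τ (x : ExteriorAlgebra k V) := by
  induction m generalizing x with
  | zero => rfl
  | succ m ih =>
    have e1 : twp N (m + 1) τ x = twp N m (τ ∘ Fin.succ) (x - exteriorPower.map N (τ 0) x) := rfl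
    have e2 : tw (m + 1) τ (x : ExteriorAlgebra k V) = tw m (τ ∘ Fin.succ)
      ((x : ExteriorAlgebra k V) - ExteriorAlgebra.map (τ 0) (x : ExteriorAlgebra k V)) := rfl
    rw [e1, e2, ih]
    rw [Submodule.coe_sub, coe_map]

theorem twp_mem (ρ : Equiv.Perm (Fin n) →* Module.End k V) (m : ℕ)
    (g : Fin m → Equiv.Perm (Fin n)) : twp N m (fun i => ρ (g i)) ∈ spanOp N ρ := by
  induction m with
  | zero => exact one_mem_spanOp ρ
  | succ m ih =>
    have h1 : (1 - exteriorPower.map N (ρ (g 0)) : Module.End k (⋀[k]^N V)) ∈ spanOp N ρ := by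
      have e : (1 - exteriorPower.map N (ρ (g 0)) : Module.End k (⋀[k]^N V)) =
          1 + (-1 : k) • exteriorPower.map N (ρ (g 0)) := by
        refine LinearMap.ext fun x => ?_
        rw [LinearMap.sub_apply, LinearMap.add_apply, LinearMap.smul_apply, neg_smul, one_smul,
          sub_eq_add_neg]
      rw [e]
      exact (spanOp N ρ).add_mem (one_mem_spanOp ρ)
        ((spanOp N ρ).smul_mem (-1) (mem_spanOp ρ (g 0)))
    exact mul_mem_spanOp ρ (ih (fun i => g i.succ)) h1

theorem cw_coe (φ : Fin N → Dual k V) (x : ⋀[k]^N V) :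
    cw N φ (x : ExteriorAlgebra k V) = algebraMap k _
      (exteriorPower.pairingDual k V N (exteriorPower.ιMulti k N φ) x) := by
  have h : (cw N φ) ∘ₗ (⋀[k]^N V).subtype = (Algebra.linearMap k (ExteriorAlgebra k V)) ∘ₗ
      (exteriorPower.pairingDual k V N (exteriorPower.ιMulti k N φ)) := by
    apply exteriorPower.linearMap_ext
    ext v
    simp only [LinearMap.compAlternatingMap_apply, LinearMap.comp_apply, Submodule.subtype_apply,
      exteriorPower.ιMulti_apply_coe, cw_ιMulti, exteriorPower.pairingDual_ιMulti_ιMulti,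
      Algebra.linearMap_apply]
    rw [← Matrix.det_transpose]
    rfl
  exact LinearMap.congr_fun h x

/-- The rank one operators. -/
noncomputable def rk (x : ⋀[k]^N V) (s : Dual k (⋀[k]^N V)) : Module.End k (⋀[k]^N V) :=
  s.smulRight x

theorem rk_mem {ρ : Equiv.Perm (Fin n) →* Module.End k V} {u : Fin n → V} {ψ : Fin n → Dual k V}
    (H : ReflData ρ u ψ) (a b : Fin N → Fin n) (hab : Injective (Sum.elim a b)) :
    rk (exteriorPower.ιMulti k N (root u a b))
      (exteriorPower.pairingDual k V N (exteriorPower.ιMulti k N (root ψ a b))) ∈ spanOp N ρ := by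
  have hne : ∀ i j, a i ≠ b j := fun i j h => by
    have := @hab (Sum.inl i) (Sum.inr j) h
    exact absurd this (by simp)
  have haa : ∀ i j, i ≠ j → a i ≠ a j := fun i j hij h => by
    have := @hab (Sum.inl i) (Sum.inl j) h
    exact hij (Sum.inl_injective this)
  have hbb : ∀ i j, i ≠ j → b i ≠ b j := fun i j hij h => by
    have := @hab (Sum.inr i) (Sum.inr j) h
    exact hij (Sum.inr_injective this)
  have h := twp_mem (N := N) ρ N (fun i => Equiv.swap (a i) (b i))
  convert h using 1
  refine LinearMap.ext fun x => ?_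
  apply Subtype.ext
  rw [coe_twp, tw_eq N _ (root ψ a b) (root u a b) (fun i v => H.swap (a i) (b i) (hne i i) v)
    (fun i j hij => H.disj _ _ _ _ (haa i j hij) (hne i j) (hne j i).symm (hbb i j hij)), cw_coe]
  rw [← Algebra.commutes, ← Algebra.smul_def]
  rfl

/-- Permutations extend injections. -/
theorem exists_perm {α β : Type*} [Fintype α] [DecidableEq α] {f g : β → α} (hf : Injective f)
    (hg : Injective g) : ∃ σ : Equiv.Perm α, ∀ x, σ (f x) = g x := by
  classical
  let e : {x // x ∈ Set.range f} ≃ {x // x ∈ Set.range g} :=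
    (Equiv.ofInjective f hf).symm.trans (Equiv.ofInjective g hg)
  refine ⟨e.extendSubtype, fun x => ?_⟩
  rw [Equiv.extendSubtype_apply_of_mem e (f x) ⟨x, rfl⟩]
  have : (Equiv.ofInjective f hf).symm ⟨f x, ⟨x, rfl⟩⟩ = x :=
    Equiv.ofInjective_symm_apply hf x
  change ((Equiv.ofInjective g hg) ((Equiv.ofInjective f hf).symm ⟨f x, ⟨x, rfl⟩⟩) : α) = g x
  rw [this]
  rfl

theorem rk_mem' {ρ : Equiv.Perm (Fin n) →* Module.End k V} {u : Fin n → V}
    {ψ : Fin n → Dual k V} (H : ReflData ρ u ψ) (a b a' b' : Fin N → Fin n)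
    (hab : Injective (Sum.elim a b)) (hab' : Injective (Sum.elim a' b')) :
    rk (exteriorPower.ιMulti k N (root u a b))
      (exteriorPower.pairingDual k V N (exteriorPower.ιMulti k N (root ψ a' b'))) ∈
      spanOp N ρ := by
  obtain ⟨g, hg⟩ := exists_perm hab' hab
  have h1 := mul_mem_spanOp ρ (mem_spanOp (N := N) ρ g) (rk_mem H a' b' hab')
  convert h1 using 1
  refine LinearMap.ext fun x => ?_
  set c : k := exteriorPower.pairingDual k V N (exteriorPower.ιMulti k N (root ψ a' b')) x with hc
  change c • exteriorPower.ιMulti k N (root u a b) = exteriorPower.map N (ρ g)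
    (c • exteriorPower.ιMulti k N (root u a' b'))
  rw [map_smul, exteriorPower.map_apply_ιMulti]
  congr 2
  funext i
  have h2 : g (a' i) = a i := hg (Sum.inl i)
  have h3 : g (b' i) = b i := hg (Sum.inr i)
  simp only [comp_apply, root]
  rw [H.act, h2, h3]

/-- The group spans all endomorphisms of the exterior power. -/
theorem spanOp_eq_top [FiniteDimensional k V] {ρ : Equiv.Perm (Fin n) →* Module.End k V}
    {u : Fin n → V} {ψ : Fin n → Dual k V} (H : ReflData ρ u ψ) (h2 : (2 : k) ≠ 0)
    (hn : 2 * N ≤ n) : spanOp N ρ = ⊤ := by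
  have hX := span_matchings (N := N) h2 hn u H.hu
  have hS := span_matchings_dual (N := N) h2 hn ψ H.hψ
  have hall : ∀ x : ⋀[k]^N V, ∀ s : Dual k (⋀[k]^N V), rk x s ∈ spanOp N ρ := by
    intro x s
    have hx : x ∈ (⊤ : Submodule k (⋀[k]^N V)) := Submodule.mem_top
    have hs : s ∈ (⊤ : Submodule k (Dual k (⋀[k]^N V))) := Submodule.mem_top
    rw [← hX] at hx
    rw [← hS] at hs
    induction hx using Submodule.span_induction with
    | zero =>
      have : rk (0 : ⋀[k]^N V) s = 0 := by ext; simp [rk]
      rw [this]; exact Submodule.zero_mem _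
    | add x y _ _ hx hy =>
      have : rk (x + y) s = rk x s + rk y s := by ext; simp [rk]
      rw [this]; exact Submodule.add_mem _ hx hy
    | smul c x _ hx =>
      have : rk (c • x) s = c • rk x s := by
        refine LinearMap.ext fun y => ?_
        simp only [rk, LinearMap.smulRight_apply, LinearMap.smul_apply]
        rw [smul_comm]
      rw [this]; exact Submodule.smul_mem _ _ hx
    | mem x hx =>
      obtain ⟨a, b, hab, rfl⟩ := hx
      induction hs using Submodule.span_induction with
      | zero =>
        have : rk (exteriorPower.ιMulti k N (root u a b)) (0 : Dual k (⋀[k]^N V)) = 0 := by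
          ext; simp [rk]
        rw [this]; exact Submodule.zero_mem _
      | add s t _ _ hs ht =>
        have : rk (exteriorPower.ιMulti k N (root u a b)) (s + t) =
            rk (exteriorPower.ιMulti k N (root u a b)) s +
            rk (exteriorPower.ιMulti k N (root u a b)) t := by
          ext; simp [rk, add_smul]
        rw [this]; exact Submodule.add_mem _ hs ht
      | smul c s _ hs =>
        have : rk (exteriorPower.ιMulti k N (root u a b)) (c • s) =
            c • rk (exteriorPower.ιMulti k N (root u a b)) s := by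
          ext; simp [rk, mul_smul]
        rw [this]; exact Submodule.smul_mem _ _ hs
      | mem s hs =>
        obtain ⟨a', b', hab', rfl⟩ := hs
        exact rk_mem' H a b a' b' hab hab'
  rw [eq_top_iff]
  rintro f -
  classical
  let B := Module.finBasis k (⋀[k]^N V)
  have hf : f = ∑ t, rk (f (B t)) (B.coord t) := by
    refine B.ext fun t => ?_
    rw [LinearMap.sum_apply]
    simp only [rk, LinearMap.smulRight_apply, Basis.coord_apply, Basis.repr_self]
    rw [Finset.sum_eq_single t]
    · simp
    · intro t' _ ht'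
      simp [Finsupp.single_eq_of_ne ht']
    · intro h
      exact absurd (Finset.mem_univ _) h
  rw [hf]
  exact Submodule.sum_mem _ fun t _ => hall _ _

end Pool.Agent.Heart
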